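import Pool.Agent.H741.RS.Stm

set_option autoImplicit false
open scoped ComplexConjugate

/-!
Project RS, task EXT: Witt extension for the form `J`.
-/

namespace Pool.Agent.H741.RS

namespace EXT

variable {N : ℕ}

theorem J_add_left (X X' Y : ℂ × V N) : J (X + X') Y = J X Y + J X' Y := by
  simp only [J, hp, Prod.fst_add, Prod.snd_add, inner_add_right]
  ring

theorem J_smul_left (c : ℂ) (X Y : ℂ × V N) : J (c • X) Y = c * J X Y := by
  simp only [J, hp, Prod.smul_fst, Prod.smul_snd, inner_smul_right, smul_eq_mul]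
  ring

theorem J_conj (X Y : ℂ × V N) : conj (J X Y) = J Y X := by
  simp only [J, hp, map_sub, map_mul, Complex.conj_conj, inner_conj_symm]
  ring

theorem J_add_right (X Y Y' : ℂ × V N) : J X (Y + Y') = J X Y + J X Y' := by
  rw [← J_conj, J_add_left, map_add, J_conj, J_conj]

theorem J_smul_right (c : ℂ) (X Y : ℂ × V N) : J X (c • Y) = conj c * J X Y := by
  rw [← J_conj, J_smul_left, map_mul, J_conj]

theorem J_sub_left (X X' Y : ℂ × V N) : J (X - X') Y = J X Y - J X' Y := by
  rw [sub_eq_add_neg, J_add_left, show -X' = (-1 : ℂ) • X' by simp, J_smul_left]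
  ring

theorem J_sub_right (X Y Y' : ℂ × V N) : J X (Y - Y') = J X Y - J X Y' := by
  rw [← J_conj, J_sub_left, map_sub, J_conj, J_conj]

theorem J_self (X : ℂ × V N) : J X X = ((‖X.1‖ ^ 2 - ‖X.2‖ ^ 2 : ℝ) : ℂ) := by
  simp only [J, hp]
  rw [Complex.mul_conj, inner_self_eq_norm_sq_to_K, Complex.normSq_eq_norm_sq]
  push_cast
  rfl

theorem exists_T (e : ℂ × V N) (s : ℝ) (hs : 0 < s) (he : J e e = (s : ℂ) ^ 2) :
    ∃ T : (ℂ × V N) →ₗ[ℂ] (ℂ × V N), PresJ T ∧ T e = ((s : ℂ), 0) := by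
  set f : ℂ × V N := ((s : ℂ), 0) with hf
  have hsc : (s : ℂ) ≠ 0 := by exact_mod_cast hs.ne'
  have hff : J f f = (s : ℂ) ^ 2 := by
    simp [J, hp, hf]
    ring
  have hef : J e f = e.1 * s := by
    simp [J, hp, hf]
  by_cases hμ : J e (e - f) = 0
  · refine ⟨LinearMap.id, fun X Y => rfl, ?_⟩
    rw [J_sub_right, he, hef] at hμ
    have h1 : e.1 = s := by
      have : (s : ℂ) * (s - e.1) = 0 := by
        rw [← hμ]
        ring
      rcases mul_eq_zero.1 this with h | h
      · exact absurd h hsc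
      · exact (sub_eq_zero.1 h).symm
    have h2 : ‖e.2‖ = 0 := by
      have h3 := J_self e
      rw [he, h1] at h3
      have h4 : (s : ℝ) ^ 2 = ‖((s : ℝ) : ℂ)‖ ^ 2 - ‖e.2‖ ^ 2 := by exact_mod_cast h3
      rw [Complex.norm_real, Real.norm_eq_abs, sq_abs] at h4
      have h5 : ‖e.2‖ ^ 2 = 0 := by linarith
      exact pow_eq_zero_iff (two_ne_zero) |>.1 h5
    have h3 : e.2 = 0 := norm_eq_zero.1 h2
    exact Prod.ext h1 h3
  · set v := e - f with hv
    set μ := J e v with hμd
    have hcμ : conj μ ≠ 0 := by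
      intro h
      exact hμ ((map_eq_zero _).1 h)
    have hvv : J v v = μ + conj μ := by
      have h1 : J v v = J e v - J f v := by
        conv_lhs => rw [hv, J_sub_left]
      have h2 : conj μ = - J f v := by
        rw [hμd, hv, J_sub_right, J_sub_right, map_sub, J_conj, J_conj, he, hff]
        ring
      rw [h1, h2, hμd]
      ring
    let T : (ℂ × V N) →ₗ[ℂ] (ℂ × V N) :=
      { toFun := fun x => x - (J x v / μ) • v
        map_add' := fun x y => by
          rw [J_add_left, add_div, add_smul]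
          abel
        map_smul' := fun c x => by
          simp only [RingHom.id_apply]
          rw [J_smul_left, smul_sub c x, smul_smul, mul_div_assoc] }
    have hT : ∀ x, T x = x - (J x v / μ) • v := fun x => rfl
    refine ⟨T, ?_, ?_⟩
    · intro X Y
      rw [hT, hT]
      simp only [J_sub_left, J_sub_right, J_smul_left, J_smul_right, map_div₀, hvv]
      rw [J_conj Y v]
      field_simp
      ring
    · rw [hT, ← hμd, div_self hμ, one_smul, hv]
      abel

theorem exists_inv (A : (ℂ × V N) →ₗ[ℂ] (ℂ × V N)) (hA : PresJ A) :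
    ∃ A' : (ℂ × V N) →ₗ[ℂ] (ℂ × V N), PresJ A' ∧ ∀ X, A' (A X) = X := by
  have hinj : Function.Injective A := by
    rw [← LinearMap.ker_eq_bot, LinearMap.ker_eq_bot']
    intro X hX
    have h1 : J X (X.1, -X.2) = 0 := by
      rw [← hA, hX]
      simp [J, hp]
    have h2 : J X (X.1, -X.2) = ((‖X.1‖ ^ 2 + ‖X.2‖ ^ 2 : ℝ) : ℂ) := by
      simp only [J, hp, inner_neg_left]
      rw [Complex.mul_conj, inner_self_eq_norm_sq_to_K, Complex.normSq_eq_norm_sq]
      push_cast
      rw [sub_neg_eq_add]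
      rfl
    rw [h1] at h2
    have h3 : ‖X.1‖ ^ 2 + ‖X.2‖ ^ 2 = 0 := by exact_mod_cast h2.symm
    have h4 : ‖X.1‖ ^ 2 = 0 := by nlinarith [sq_nonneg ‖X.1‖, sq_nonneg ‖X.2‖]
    have h5 : ‖X.2‖ ^ 2 = 0 := by nlinarith [sq_nonneg ‖X.1‖, sq_nonneg ‖X.2‖]
    exact Prod.ext (norm_eq_zero.1 (pow_eq_zero_iff two_ne_zero |>.1 h4))
      (norm_eq_zero.1 (pow_eq_zero_iff two_ne_zero |>.1 h5))
  let E := LinearEquiv.ofInjectiveEndo A hinj
  have hE : ∀ X, E X = A X := fun X => rfl
  refine ⟨E.symm.toLinearMap, ?_, ?_⟩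
  · intro X Y
    rw [← hA]
    have h1 : ∀ Z, A (E.symm.toLinearMap Z) = Z := fun Z => by
      rw [← hE]
      exact E.apply_symm_apply Z
    rw [h1, h1]
  · intro X
    rw [← hE]
    exact E.symm_apply_apply X

/-- two families with the same scalar products differ by an isometry -/
theorem exists_U (X : Type) (p p' : X → V N)
    (h : ∀ x y, inner ℂ (p x) (p y) = inner ℂ (p' x) (p' y)) :
    ∃ U : V N →ₗᵢ[ℂ] V N, ∀ x, U (p x) = p' x := by
  have hin : ∀ c : X →₀ ℂ, ‖Finsupp.linearCombination ℂ p c‖ =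
      ‖Finsupp.linearCombination ℂ p' c‖ := by
    intro c
    have h1 : ∀ q : X → V N, inner ℂ (Finsupp.linearCombination ℂ q c)
        (Finsupp.linearCombination ℂ q c) =
        ∑ x ∈ c.support, ∑ y ∈ c.support, c y * (conj (c x) * inner ℂ (q x) (q y)) := by
      intro q
      rw [Finsupp.linearCombination_apply, Finsupp.sum, sum_inner]
      refine Finset.sum_congr rfl fun x _ => ?_
      rw [inner_sum]
      refine Finset.sum_congr rfl fun y _ => ?_
      rw [inner_smul_right, inner_smul_left]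
    have h2 : inner ℂ (Finsupp.linearCombination ℂ p c) (Finsupp.linearCombination ℂ p c) =
        inner ℂ (Finsupp.linearCombination ℂ p' c) (Finsupp.linearCombination ℂ p' c) := by
      rw [h1, h1]
      simp only [h]
    rw [inner_self_eq_norm_sq_to_K, inner_self_eq_norm_sq_to_K] at h2
    have h3 : ‖Finsupp.linearCombination ℂ p c‖ ^ 2 = ‖Finsupp.linearCombination ℂ p' c‖ ^ 2 := by
      exact_mod_cast h2
    exact (sq_eq_sq₀ (norm_nonneg _) (norm_nonneg _)).1 h3
  set S : Submodule ℂ (V N) := LinearMap.range (Finsupp.linearCombination ℂ p) with hS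
  obtain ⟨g, hg⟩ := LinearMap.exists_rightInverse_of_surjective
    (Finsupp.linearCombination ℂ p).rangeRestrict (LinearMap.range_rangeRestrict _)
  have hg' : ∀ z : S, Finsupp.linearCombination ℂ p (g z) = z := by
    intro z
    have := congrArg (fun L => ((L z : S) : V N)) hg
    exact this
  let L : S →ₗᵢ[ℂ] V N :=
    { toLinearMap := Finsupp.linearCombination ℂ p' ∘ₗ g
      norm_map' := fun z => by
        rw [LinearMap.comp_apply, ← hin, hg']
        rfl }
  refine ⟨L.extend, fun x => ?_⟩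
  have hx : p x ∈ S := ⟨Finsupp.single x 1, by simp⟩
  have h1 : L.extend (p x) = L ⟨p x, hx⟩ := L.extend_apply ⟨p x, hx⟩
  rw [h1]
  have h2 : L ⟨p x, hx⟩ = Finsupp.linearCombination ℂ p' (g ⟨p x, hx⟩) := rfl
  rw [h2]
  have h3 := hin (g ⟨p x, hx⟩ - Finsupp.single x 1)
  rw [map_sub, map_sub, hg'] at h3
  simp only [Finsupp.linearCombination_single, one_smul, sub_self, norm_zero] at h3
  exact sub_eq_zero.1 (norm_eq_zero.1 h3.symm)

end EXT

open EXT in
theorem t_EXT : S_EXT := by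
  intro N X F F' x0 hFF h0
  have hs2 := J_self (F x0)
  set s2 : ℝ := ‖(F x0).1‖ ^ 2 - ‖(F x0).2‖ ^ 2 with hs2d
  rw [hs2, Complex.ofReal_re] at h0
  set s : ℝ := Real.sqrt s2 with hsd
  have hs : 0 < s := Real.sqrt_pos.2 h0
  have hss : s ^ 2 = s2 := Real.sq_sqrt h0.le
  have he : J (F x0) (F x0) = (s : ℂ) ^ 2 := by
    rw [hs2, ← hss]
    push_cast
    rfl
  have he' : J (F' x0) (F' x0) = (s : ℂ) ^ 2 := by
    rw [← hFF, he]
  obtain ⟨T, hT, hTe⟩ := exists_T _ s hs he
  obtain ⟨T', hT', hTe'⟩ := exists_T _ s hs he'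
  have hsc : (s : ℂ) ≠ 0 := by exact_mod_cast hs.ne'
  have hfst : ∀ Y : ℂ × V N, J Y ((s : ℂ), 0) = Y.1 * s := by
    intro Y
    simp [J, hp]
  have h1 : ∀ x, (T (F x)).1 = (T' (F' x)).1 := by
    intro x
    have a1 := hT (F x) (F x0)
    have a2 := hT' (F' x) (F' x0)
    rw [hTe, hfst] at a1
    rw [hTe', hfst, ← hFF, ← a1] at a2
    exact (mul_right_cancel₀ hsc a2).symm
  have h2 : ∀ x y, inner ℂ (T (F x)).2 (T (F y)).2 = inner ℂ (T' (F' x)).2 (T' (F' y)).2 := by
    intro x y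
    have a1 := hT (F y) (F x)
    have a2 := hT' (F' y) (F' x)
    rw [hFF, ← a2] at a1
    simp only [J, hp] at a1
    rw [h1 x, h1 y] at a1
    exact sub_right_injective a1
  obtain ⟨U, hU⟩ := exists_U X _ _ h2
  obtain ⟨T'', hT'', hinv⟩ := exists_inv T' hT'
  refine ⟨T'' ∘ₗ (LinearMap.prodMap LinearMap.id U.toLinearMap) ∘ₗ T, ?_, ?_⟩
  · intro Y Z
    simp only [LinearMap.comp_apply]
    rw [hT'', ← hT Y Z]
    simp only [J, hp, LinearMap.prodMap_apply, LinearMap.id_apply]
    congr 1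
    exact U.inner_map_map _ _
  · intro x
    simp only [LinearMap.comp_apply]
    have h3 : (LinearMap.prodMap LinearMap.id U.toLinearMap) (T (F x)) = T' (F' x) := by
      rw [LinearMap.prodMap_apply]
      exact Prod.ext (h1 x) (hU x)
    rw [h3, hinv]

end Pool.Agent.H741.RS
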